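import Pool.Agent.H27.TM.TargetsG

/-!
Row DL of the board tm12_modules (MP_52e316_nt): the number of the half differences of a given
size.
-/

set_option autoImplicit false

open NumberField NumberField.InfinitePlace

namespace Pool.Agent.H3.TMB.DL

open Pool.Agent.H27.TM
open Pool.Agent.H25.HK Pool.Agent.H23.LB Pool.Agent.H23.LC
open Pool.Agent.H29.DW (wv Pos)
open Pool.Agent.H31.SW (DD PP)

variable {K : Type} [Field K] [NumberField K]

private lemma PP_four {n : ℕ} (hn : Module.finrank ℚ K = n) (α : InfinitePlace K → ℝ) :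
    PP (fun v => 4 * α v) = 4 ^ n * PP α := by
  unfold PP
  simp only [mul_pow]
  rw [Finset.prod_mul_distrib, Finset.prod_pow_eq_pow_sum, sum_mult_eq, hn]

omit [NumberField K] in
private lemma wv_two (v : InfinitePlace K) (x : K) (y : InfinitePlace K → ℝ)
    (ω : InfinitePlace K → ℂ) : wv v (2 * x) y ω = 2 * wv v x y ω := by
  unfold wv
  rw [map_mul, map_ofNat]
  ring

theorem pf_DL (hNZ : M_NZ) : M_DL := by
  intro n hn0
  obtain ⟨C, hC, hNZ⟩ := hNZ n hn0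
  refine ⟨C * 4 ^ n, ?_, fun K _ _ hn L y ω α hL hω hα => ?_⟩
  · have h1 : (1 : ℝ) ≤ 4 ^ n := one_le_pow₀ (by norm_num)
    nlinarith
  obtain ⟨hfin, hcard⟩ := hNZ K hn L y ω (fun v => 4 * α v) hL hω
    fun v => by have := hα v; positivity
  rw [PP_four hn] at hcard
  obtain ⟨v₀⟩ : Nonempty (InfinitePlace K) := inferInstance
  have hmaps : ∀ δ ∈ Dl L y ω α, 2 * δ ∈
      {x : K | x ∈ L ∧ x ≠ 0 ∧ ∀ v, ‖wv v x y ω‖ ≤ (fun v => 4 * α v) v} := by
    intro δ hδ
    obtain ⟨h1, h2⟩ := hδ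
    refine ⟨h1, ?_, fun v => ?_⟩
    · intro h0
      have h3 : δ = 0 := by
        have h2' : (2 : K) ≠ 0 := two_ne_zero
        exact (mul_eq_zero.1 h0).resolve_left h2'
      have h4 := (h2 v₀).1
      rw [h3] at h4
      unfold wv at h4
      rw [map_zero, zero_mul, zero_mul, norm_zero] at h4
      linarith [hα v₀]
    · rw [wv_two, norm_mul]
      have h5 := (h2 v).2
      have h6 : ‖(2 : ℂ)‖ = 2 := by norm_num
      rw [h6]
      change 2 * ‖wv v δ y ω‖ ≤ 4 * α v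
      linarith
  have hinj : Set.InjOn (fun δ : K => 2 * δ) (Dl L y ω α) := by
    intro a _ b _ hab
    exact mul_left_cancel₀ (two_ne_zero : (2 : K) ≠ 0) hab
  have hDfin : (Dl L y ω α).Finite :=
    Set.Finite.of_finite_image (hfin.subset (by
      rintro x ⟨δ, hδ, rfl⟩
      exact hmaps δ hδ)) hinj
  have hDcard : ((Dl L y ω α).ncard : ℝ) ≤ C * 4 ^ n * (DD L y * PP α) := by
    have h1 : (Dl L y ω α).ncard ≤
        {x : K | x ∈ L ∧ x ≠ 0 ∧ ∀ v, ‖wv v x y ω‖ ≤ (fun v => 4 * α v) v}.ncard :=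
      Set.ncard_le_ncard_of_injOn (fun δ => 2 * δ) hmaps hinj hfin
    have h2 : ((Dl L y ω α).ncard : ℝ) ≤
        ({x : K | x ∈ L ∧ x ≠ 0 ∧ ∀ v, ‖wv v x y ω‖ ≤ (fun v => 4 * α v) v}.ncard : ℝ) := by
      exact_mod_cast h1
    refine (h2.trans hcard).trans (le_of_eq ?_)
    ring
  refine ⟨hDfin, hDcard, fun ν => ⟨?_, ?_⟩⟩
  · unfold dv
    exact Nat.cast_nonneg _
  · refine le_trans ?_ hDcard
    unfold dv
    have h3 : {δ | δ ∈ Dl L y ω α ∧ ν / δ ∈ du K L}.ncard ≤ (Dl L y ω α).ncard :=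
      Set.ncard_le_ncard (fun δ hδ => hδ.1) hDfin
    exact_mod_cast h3

end Pool.Agent.H3.TMB.DL
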